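import Mathlib
import Pool.Agent.Work.MP_4235af_lc.Defs
import Pool.Agent.Work.MP_4235af_lc.RotHom

/-!
# Meagre / Haar null decompositions of `H⁺(Dⁿ)` and `H⁺(Sⁿ)`

Idea of the proof: let `K` be the identity component of the orthogonal group and `μ` its Haar
probability measure, transported to `G = H⁺(Sⁿ)` or `G = H⁺(Dⁿ)`. If a two-sided translate `g U h`
of a small neighbourhood `U` of the identity had `μ`-measure `> ε`, then
`W = {k ∈ K : h k h⁻¹ ∈ U⁻¹ U}` would be a symmetric neighbourhood of `1` in the compact connected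
group `K` of measure `> ε`, so that `W ^ N = K` for some `N` depending only on `ε`; thus all the
elements of `h K h⁻¹` would be uniformly close to the identity. But some element of `h K h⁻¹` moves
some point of the unit sphere to its antipode: for `Sⁿ` because `K` is transitive on `Sⁿ`, for `Dⁿ`
because the continuous function `‖h⁻¹ x‖ - ‖h⁻¹ (-x)‖` of `x ∈ ∂Dⁿ` is odd, hence has a zero.
So small balls have uniformly small measure under two-sided translations, and a suitable dense
`G_δ` set is Haar null.
-/

open Topology Set Metric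

namespace Pool.Agent.Results.MP_4235af_lc.Decomposition

open Pool.Agent.Work.MP_4235af_lc

theorem one_lt_rank (m : ℕ) (hm : 2 ≤ m) :
    1 < Module.rank ℝ (EuclideanSpace ℝ (Fin m)) := by
  rw [← Module.finrank_eq_rank, finrank_euclideanSpace, Fintype.card_fin]
  exact_mod_cast hm

theorem sphere_case (n : ℕ) (hn : 1 ≤ n) : HasHaarMeagrePartition (spherePlus n) :=
  decomposition_sphere (one_lt_rank (n + 1) (by omega))
    (actTrivially (sphere (0 : EuclideanSpace ℝ (Fin (n + 1))) 1) n)
    fun k hk => rot_mem_actTrivially n k hk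

theorem disc_case (n : ℕ) (hn : 2 ≤ n) : HasHaarMeagrePartition (discPlus n) := by
  obtain ⟨l, rfl⟩ : ∃ l, n = l + 1 := ⟨n - 1, by omega⟩
  exact decomposition_ball (one_lt_rank (l + 1) hn)
    (actTriviallyRel (A := sphere (0 : EuclideanSpace ℝ (Fin (l + 1))) 1)
      (X := closedBall (0 : EuclideanSpace ℝ (Fin (l + 1))) 1)
      (bdryIncl (l + 1)) (isEmbedding_bdryIncl (l + 1)) (l + 1))
    fun k hk => rot_mem_actTriviallyRel l _ _ (fun _ => rfl) k hk

/-- For every `n ≥ 3` the group `H⁺(Dⁿ)`, and for every `n ≥ 2` the group `H⁺(Sⁿ)`, can be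
partitioned into a Haar null set and a meagre set. -/
theorem result :
    (∀ n : ℕ, 3 ≤ n → HasHaarMeagrePartition (discPlus n)) ∧
    (∀ n : ℕ, 2 ≤ n → HasHaarMeagrePartition (spherePlus n)) :=
  ⟨fun n hn => disc_case n (by omega), fun n hn => sphere_case n (by omega)⟩

end Pool.Agent.Results.MP_4235af_lc.Decomposition
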